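import Pool.Agent.W223.PL.Stms
import Pool.Agent.W131.HZ.VA2

set_option autoImplicit false

/-! Project PL: the determinants vanish (StmtPV). -/

namespace Pool.Agent.W352.PL.PV

open Pool.Agent.W223.HZ Pool.Agent.W223.PL

noncomputable section

/-- the approximation of the square root -/
lemma approx {D V P Q dd d0 N : ℝ} (hD : 0 < D) (hV : 0 < V) (hP : 0 ≤ P) (hQ : V ≤ Q)
    (hdd : D ≤ dd) (hd0 : D ≤ d0) (hN : |P ^ 2 - dd * Q ^ 2| ≤ N) :
    |P / (Q * √d0) - √(dd / d0)| ≤ N / (D * V ^ 2) := by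
  have hQ0 : 0 < Q := by linarith
  have hdd0 : 0 < dd := by linarith
  have hd00 : 0 < d0 := by linarith
  have hsD : 0 < √D := Real.sqrt_pos.2 hD
  have hs0 : 0 < √d0 := Real.sqrt_pos.2 hd00
  have hsd : 0 < √dd := Real.sqrt_pos.2 hdd0
  have h1 : √D ≤ √d0 := Real.sqrt_le_sqrt hd0
  have h2 : √D ≤ √dd := Real.sqrt_le_sqrt hdd
  have e1 : P / (Q * √d0) - √(dd / d0) = (P - √dd * Q) / (Q * √d0) := by
    rw [Real.sqrt_div hdd0.le]
    field_simp
  have e2 : |P - √dd * Q| * (P + √dd * Q) = |P ^ 2 - dd * Q ^ 2| := by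
    have h3 : 0 ≤ P + √dd * Q := by positivity
    calc |P - √dd * Q| * (P + √dd * Q) = |P - √dd * Q| * |P + √dd * Q| := by
          rw [abs_of_nonneg h3]
      _ = |(P - √dd * Q) * (P + √dd * Q)| := (abs_mul _ _).symm
      _ = |P ^ 2 - dd * Q ^ 2| := by
          congr 1
          have h7 := Real.mul_self_sqrt hdd0.le
          have h8 : (P - √dd * Q) * (P + √dd * Q) = P ^ 2 - (√dd * √dd) * Q ^ 2 := by ring
          rw [h8, h7]
  have h4 : √D * V ≤ P + √dd * Q := by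
    have : √D * V ≤ √dd * Q := mul_le_mul h2 hQ hV.le hsd.le
    linarith
  have h5 : |P - √dd * Q| * (√D * V) ≤ N := by
    calc |P - √dd * Q| * (√D * V) ≤ |P - √dd * Q| * (P + √dd * Q) :=
          mul_le_mul_of_nonneg_left h4 (abs_nonneg _)
      _ = _ := e2
      _ ≤ N := hN
  have h6 : V * √D ≤ Q * √d0 := mul_le_mul hQ h1 hsD.le hQ0.le
  rw [e1, abs_div, abs_of_pos (by positivity : 0 < Q * √d0), div_le_div_iff₀ (by positivity)
    (by positivity)]
  have e3 : D * V ^ 2 = (√D * V) * (V * √D) := by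
    have := Real.mul_self_sqrt hD.le
    nlinarith
  have hN0 : 0 ≤ N := (abs_nonneg _).trans hN
  calc |P - √dd * Q| * (D * V ^ 2) = (|P - √dd * Q| * (√D * V)) * (V * √D) := by
        rw [e3]; ring
    _ ≤ N * (Q * √d0) := mul_le_mul h5 h6 (by positivity) hN0

lemma exp_zpow (x : ℝ) (n : ℤ) : Real.exp x ^ n = Real.exp (n * x) := by
  rw [← Real.rpow_intCast, ← Real.exp_mul, mul_comm]

/-- the inequality between the exponents -/
lemma expo {A m : ℕ} (hm : m = 2 * (4 * A + 1) ^ 2) {l v s : ℝ} (hl : 0 ≤ l) (hv : 0 ≤ v)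
    (hv2 : v ≤ 2 * A * l) (hs : l ≤ s) (u : ℤ) :
    (((m : ℤ) - u : ℤ) : ℝ) * (l / 8 - l - 2 * v) + ((m * (m - 1) : ℕ) : ℝ) * (l / (8 * m)) +
      ((u.natAbs ^ 2 : ℕ) : ℝ) * (l / (8 * m) - s) ≤
      -(2 * m * v) - m / 2 * l - m / 10 * l := by
  have hm1 : 2 ≤ m := by
    rw [hm]
    have : 1 ≤ (4 * A + 1) ^ 2 := Nat.one_le_pow _ _ (by omega)
    omega
  have hmR : (m : ℝ) = 2 * (4 * A + 1) ^ 2 := by rw [hm]; push_cast; ring
  have hm2 : (2 : ℝ) ≤ m := by exact_mod_cast hm1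
  have hm0 : (0 : ℝ) < m := by linarith
  have e1 : ((m * (m - 1) : ℕ) : ℝ) = m * (m - 1) := by
    rw [Nat.cast_mul, Nat.cast_sub (by omega)]
    simp
  have e2 : ((u.natAbs ^ 2 : ℕ) : ℝ) = (u : ℝ) ^ 2 := by
    rw [Nat.cast_pow, Nat.cast_natAbs, Int.cast_abs, sq_abs]
  rw [e1, e2]
  push_cast
  have e3 : (m : ℝ) * (m - 1) * (l / (8 * m)) = (m - 1) / 8 * l := by
    field_simp
  rw [e3]
  set x : ℝ := (u : ℝ) with hx
  have h1 : x ^ 2 * (l / (8 * m) - s) ≤ -(15 / 16 * x ^ 2 * l) := by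
    have h2 : l / (8 * m) ≤ l / 16 := by
      apply div_le_div_of_nonneg_left hl (by norm_num) (by linarith)
    have h3 : l / (8 * m) - s ≤ -(15 / 16 * l) := by linarith
    calc x ^ 2 * (l / (8 * m) - s) ≤ x ^ 2 * (-(15 / 16 * l)) :=
          mul_le_mul_of_nonneg_left h3 (sq_nonneg x)
      _ = -(15 / 16 * x ^ 2 * l) := by ring
  have h4 : 2 * x * v + 7 / 8 * x * l ≤ (15 / 16 * x ^ 2 + 2 / 15 * m) * l := by
    rcases le_total x 0 with hx0 | hx0
    · have h5 : 2 * x * v ≤ 0 := by nlinarith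
      have h6 : 7 / 8 * x * l ≤ 0 := by nlinarith
      have h7 : 0 ≤ (15 / 16 * x ^ 2 + 2 / 15 * m) * l := by positivity
      linarith
    · have h5 : 2 * x * v ≤ 2 * x * (2 * A * l) :=
        mul_le_mul_of_nonneg_left hv2 (by linarith)
      have h6 : (4 * A + 1) * x ≤ 15 / 16 * x ^ 2 + 2 / 15 * m := by
        rw [hmR]
        nlinarith [sq_nonneg (15 / 8 * x - (4 * A + 1))]
      have h7 : (4 * A + 1) * x * l ≤ (15 / 16 * x ^ 2 + 2 / 15 * m) * l :=
        mul_le_mul_of_nonneg_right h6 hl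
      have h8 : 0 ≤ x * l := mul_nonneg hx0 hl
      nlinarith
  have h9 : 0 ≤ m * l := by positivity
  nlinarith

lemma one_lt_aux {C l : ℝ} {m : ℕ} (hC : 1 ≤ C) (hm : 1 ≤ m)
    (h : 8 * C ^ m ≤ Real.exp (l / 10)) :
    6 ^ m * (C ^ (m ^ 2) * Real.exp (-(m / 10 * l))) < 1 := by
  have hC0 : 0 < C := by linarith
  have h1 : (8 * C ^ m) ^ m ≤ Real.exp (m / 10 * l) := by
    calc (8 * C ^ m) ^ m ≤ Real.exp (l / 10) ^ m := pow_le_pow_left₀ (by positivity) h m
      _ = Real.exp (m / 10 * l) := by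
          rw [← Real.exp_nat_mul]
          congr 1
          ring
  rw [Real.exp_neg]
  have hE : 0 < Real.exp (m / 10 * l) := Real.exp_pos _
  have e1 : 6 ^ m * (C ^ (m ^ 2) * (Real.exp (m / 10 * l))⁻¹) =
      (6 ^ m * C ^ (m ^ 2)) / Real.exp (m / 10 * l) := by
    field_simp
  rw [e1, div_lt_one hE]
  refine lt_of_lt_of_le ?_ h1
  have e2 : (8 * C ^ m) ^ m = 8 ^ m * C ^ (m ^ 2) := by
    rw [mul_pow, ← pow_mul, sq]
  rw [e2]
  apply mul_lt_mul_of_pos_right _ (by positivity)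
  exact pow_lt_pow_left₀ (by norm_num) (by norm_num) (by omega)

theorem t (hG : StmtDPG) (hP : StmtPP1) : StmtPV := by
  intro A hA m hm
  obtain ⟨C₄, hC₄, hC'⟩ := hP
  obtain ⟨C₅, hC₅, hB'⟩ := hG C₄ hC₄
  have hm1 : 2 ≤ m := by
    rw [hm]
    have : 1 ≤ (4 * A + 1) ^ 2 := Nat.one_le_pow _ _ (by omega)
    omega
  have hm2 : (2 : ℝ) ≤ m := by exact_mod_cast hm1
  have hm0 : (0 : ℝ) < m := by linarith
  have hCm : 1 ≤ C₅ ^ m := one_le_pow₀ hC₅
  refine ⟨max (C₄ ^ 2) ((8 * C₅ ^ m) ^ 10), le_max_of_le_left (one_le_pow₀ hC₄), ?_⟩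
  intro D V d₀ P Q d hD hV1 hV2 hd0 hd0' hd hdd hQ hP0 hN
  have hD1 : C₄ ^ 2 ≤ D := (le_max_left _ _).trans hD
  have hD2 : (8 * C₅ ^ m) ^ 10 ≤ D := (le_max_right _ _).trans hD
  have hD1' : 1 ≤ D := (one_le_pow₀ hC₄).trans hD1
  have hDp : 0 < D := by linarith
  have hVp : 0 < V := by linarith
  have hd0p : (0 : ℝ) < d₀ := by linarith
  set l : ℝ := Real.log D with hl
  set v : ℝ := Real.log V with hv
  have hl0 : 0 ≤ l := Real.log_nonneg hD1'
  have hv0 : 0 ≤ v := Real.log_nonneg hV1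
  have hDe : D = Real.exp l := (Real.exp_log hDp).symm
  have hVe : V = Real.exp v := (Real.exp_log hVp).symm
  have hv2 : v ≤ 2 * A * l := by
    have h1 := Real.log_le_log hVp hV2
    rw [Real.log_pow] at h1
    push_cast at h1
    exact h1
  have hs : l ≤ Real.log d₀ := Real.log_le_log hDp hd0
  have hLe : D ^ (1 / (8 * (m : ℝ))) = Real.exp (l / (8 * m)) := by
    rw [Real.rpow_def_of_pos hDp]
    congr 1
    ring
  have hNe : D ^ ((1 : ℝ) / 8) = Real.exp (l / 8) := by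
    rw [Real.rpow_def_of_pos hDp]
    congr 1
    ring
  set L : ℝ := Real.exp (l / (8 * m)) with hL
  set e : ℝ := Real.exp (l / 8 - l - 2 * v) with he
  have hee : e = Real.exp (l / 8) / (D * V ^ 2) := by
    rw [he, hDe, hVe, Real.exp_sub, Real.exp_sub, ← Real.exp_nat_mul]
    push_cast
    field_simp
  have hL0 : 0 < L := Real.exp_pos _
  have he0 : 0 < e := Real.exp_pos _
  have hCL : C₄ * L ≤ d₀ := by
    refine le_trans ?_ hd0
    have h1 : L ≤ Real.exp (l / 2) := by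
      apply Real.exp_le_exp.2
      apply div_le_div_of_nonneg_left hl0 (by norm_num) (by linarith)
    have h2 : C₄ ≤ Real.exp (l / 2) := by
      have h3 : C₄ ^ 2 ≤ Real.exp (l / 2) ^ 2 := by
        rw [← Real.exp_nat_mul]
        have : ((2 : ℕ) : ℝ) * (l / 2) = l := by push_cast; ring
        rw [this, ← hDe]
        exact hD1
      exact (pow_le_pow_iff_left₀ (by linarith) (Real.exp_pos _).le (by norm_num)).1 h3
    calc C₄ * L ≤ Real.exp (l / 2) * Real.exp (l / 2) :=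
          mul_le_mul h2 h1 hL0.le (Real.exp_pos _).le
      _ = D := by
          rw [← Real.exp_add, hDe]
          congr 1
          ring
  have hd01 : (1 : ℤ) ≤ d₀ := by
    have : (1 : ℝ) ≤ d₀ := by linarith
    exact_mod_cast this
  have hQ0 : ∀ i, (0 : ℝ) < Q i := fun i => hVp.trans_le (hQ i).1
  have hpar : Param C₄ (d₀ : ℝ) L e (fun i => d i - d₀)
      (fun i => (P i : ℝ) / (Q i * √(d₀ : ℝ))) := by
    apply hC' L e (Fin m ⊕ Fin m) (fun i => d i - d₀) d₀ _ hd01 hL0.le hCL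
    · intro i
      have := hdd i
      rw [hLe] at this
      push_cast
      exact this
    · intro i
      have h1 : ((d₀ : ℝ) + ((d i - d₀ : ℤ) : ℝ)) / d₀ = (d i : ℝ) / d₀ := by
        push_cast
        ring_nf
      rw [h1, hee]
      apply approx hDp hVp (by exact_mod_cast hP0 i) (hQ i).1 (hd i).1 hd0
      have h2 := hN i
      rw [hNe] at h2
      push_cast at h2
      exact h2
  set Y : ℝ := Real.exp (-(2 * m * v) - m / 2 * l - m / 10 * l) with hY
  have hY2 : ∀ u : ℤ, |u| ≤ m →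
      e ^ ((m : ℤ) - u) * L ^ (m * (m - 1)) * (L / (d₀ : ℝ)) ^ (u.natAbs ^ 2) ≤ Y := by
    intro u _
    have h1 : L / (d₀ : ℝ) = Real.exp (l / (8 * m) - Real.log d₀) := by
      rw [Real.exp_sub, Real.exp_log hd0p]
    rw [h1, he, hL, exp_zpow, ← Real.exp_nat_mul, ← Real.exp_nat_mul, ← Real.exp_add,
      ← Real.exp_add, hY]
    apply Real.exp_le_exp.2
    exact expo hm hl0 hv0 hv2 hs u
  have hdet := hB' m (d₀ : ℝ) L e (by omega) hd0p hL0 hCL he0 _ _ hpar Y hY2
  -- the integral determinant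
  set T : ℝ := √(√(d₀ : ℝ)) with hT
  have hs0 : 0 < √(d₀ : ℝ) := Real.sqrt_pos.2 hd0p
  have hT0 : 0 < T := Real.sqrt_pos.2 hs0
  have hT2 : T ^ 2 = √(d₀ : ℝ) := Real.sq_sqrt hs0.le
  have hmain := Pool.Agent.W131.HZ.VA2.det_eq (V := 2 * V * T / 200) P Q (fun i => d i - d₀)
    (fun i => (P i : ℝ) / (Q i * √(d₀ : ℝ))) hT0
    (by
      intro i
      have h1 := hQ0 i
      rw [hT2]
      field_simp)
    (by
      intro i
      rw [abs_of_pos (hQ0 i)]
      have h1 : (Q i : ℝ) * T ≤ 2 * V * T := mul_le_mul_of_nonneg_right (hQ i).2.le hT0.le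
      have h2 : 200 * (2 * V * T / 200) = 2 * V * T := by ring
      rw [h2]
      exact h1)
  have h200 : 200 * (2 * V * T / 200) = 2 * V * T := by ring
  rw [h200] at hmain
  have hsize : (2 * V * T) ^ (2 * m) ≤ 6 ^ m * Real.exp (2 * m * v + m / 2 * l) := by
    have e1 : (2 * V * T) ^ (2 * m) = (4 * V ^ 2 * √(d₀ : ℝ)) ^ m := by
      rw [pow_mul]
      congr 1
      rw [mul_pow, mul_pow, hT2]
      ring
    have h1 : √(d₀ : ℝ) ≤ 3 / 2 * Real.exp (l / 2) := by
      rw [Real.sqrt_le_left (by positivity)]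
      have h2 : (3 / 2 * Real.exp (l / 2)) ^ 2 = 9 / 4 * D := by
        rw [mul_pow, ← Real.exp_nat_mul]
        have : ((2 : ℕ) : ℝ) * (l / 2) = l := by push_cast; ring
        rw [this, ← hDe]
        norm_num
      rw [h2]
      linarith
    rw [e1]
    calc (4 * V ^ 2 * √(d₀ : ℝ)) ^ m ≤ (4 * V ^ 2 * (3 / 2 * Real.exp (l / 2))) ^ m := by
          apply pow_le_pow_left₀ (by positivity)
          exact mul_le_mul_of_nonneg_left h1 (by positivity)
      _ = (6 * Real.exp (2 * v + l / 2)) ^ m := by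
          congr 1
          rw [Real.exp_add, hVe, ← Real.exp_nat_mul]
          push_cast
          ring
      _ = 6 ^ m * Real.exp (2 * m * v + m / 2 * l) := by
          rw [mul_pow, ← Real.exp_nat_mul]
          congr 2
          ring
  have hlt : |((Mat m P Q (fun i => d i - d₀)).det : ℝ)| < 1 := by
    have h8 : 8 * C₅ ^ m ≤ Real.exp (l / 10) := by
      have h9 : (8 * C₅ ^ m) ^ 10 ≤ Real.exp (l / 10) ^ 10 := by
        rw [← Real.exp_nat_mul]
        have : ((10 : ℕ) : ℝ) * (l / 10) = l := by push_cast; ring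
        rw [this, ← hDe]
        exact hD2
      exact (pow_le_pow_iff_left₀ (by positivity) (Real.exp_pos _).le (by norm_num)).1 h9
    refine lt_of_le_of_lt (hmain.trans ?_) (one_lt_aux hC₅ (by omega) h8)
    calc (2 * V * T) ^ (2 * m) * _ ≤ (6 ^ m * Real.exp (2 * m * v + m / 2 * l)) *
          (C₅ ^ (m ^ 2) * Y) := by
          apply mul_le_mul hsize hdet (abs_nonneg _) (by positivity)
      _ = 6 ^ m * (C₅ ^ (m ^ 2) * Real.exp (-(m / 10 * l))) := by
          have h9 : Real.exp (-(m / 10 * l)) = Real.exp (2 * m * v + m / 2 * l) * Y := by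
            rw [hY, ← Real.exp_add]
            congr 1
            ring
          rw [h9]
          ring
  have hlt' : |(Mat m P Q (fun i => d i - d₀)).det| < 1 := by exact_mod_cast hlt
  exact Int.abs_lt_one_iff.1 hlt'

end

end Pool.Agent.W352.PL.PV
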